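import Pool.Agent.V11258.CG.Grps

/-! MP_d78ec8_co: the automorphism group of the 2-sphere graph is not isomorphic to the
homeomorphism group of the 2-sphere. -/

namespace Pool.Agent.Results.MP_d78ec8_co.NotIsomorphic

open V11258.CG

theorem result : IsEmpty (AutSphere 2 ≃* AutGraph 2) ∧
    ¬ ∀ d : ℕ, 1 < d → Nonempty (AutSphere d ≃* AutGraph d) :=
  ⟨not_iso', fun h => not_nonempty_iff.2 not_iso' (h 2 one_lt_two)⟩

end Pool.Agent.Results.MP_d78ec8_co.NotIsomorphic
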